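import Pool.Agent.Helper87.LZ.CaseB

/-! TW3: cabling. -/

set_option autoImplicit false

namespace H52TW

open Pool.Agent.Helper87.LZ

/-- `[q] = 1 + t + ⋯ + t^(q-1)` -/
noncomputable def br (t : ℂ) (q : ℕ) : ℂ := ∑ p ∈ Finset.range q, t ^ p

@[simp] lemma br_zero (t : ℂ) : br t 0 = 0 := by simp [br]

lemma br_succ (t : ℂ) (q : ℕ) : br t (q+1) = br t q + t ^ q := by
  unfold br; rw [Finset.sum_range_succ]

lemma br_succ' (t : ℂ) (q : ℕ) : br t (q+1) = 1 + t * br t q := by
  induction q with
  | zero => rw [br_succ]; simp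
  | succ q ih =>
    rw [br_succ t (q+1)]
    conv_rhs => rw [br_succ]
    rw [ih]; ring

lemma br_mul (t : ℂ) (q : ℕ) : (1 - t) * br t q = 1 - t ^ q := by
  induction q with
  | zero => simp
  | succ q ih => rw [br_succ, mul_add, ih]; ring

/-- the cabled vector: every colour is repeated `k` times -/
noncomputable def up (k : ℕ) (t t' : ℂ) (L : ℕ → ℂ) : ℕ → ℂ := fun i =>
  t' ^ (i % k) * br t' k * L (i / k) + br t' (i % k) * (L (i / k + 1) - t * L (i / k))

variable {k : ℕ} {t t' : ℂ}

lemma up_mul (hk : 1 ≤ k) (L : ℕ → ℂ) (j : ℕ) : up k t t' L (k * j) = br t' k * L j := by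
  unfold up
  rw [Nat.mul_mod_right, Nat.mul_div_cancel_left j (by omega)]
  simp

/-- colours of the cabled vector -/
lemma g_up (hk : 1 ≤ k) (ht : t' ^ k = t) (L : ℕ → ℂ) (i : ℕ) :
    g t' (up k t t' L) i = g t L (i / k) := by
  have hd := Nat.div_add_mod i k
  have hm : i % k < k := Nat.mod_lt _ (by omega)
  obtain ⟨q, hq⟩ : ∃ q, q = i % k := ⟨_, rfl⟩
  obtain ⟨j, hj⟩ : ∃ j, j = i / k := ⟨_, rfl⟩
  rw [← hq, ← hj] at hd
  rw [← hq] at hm
  unfold g
  rcases Nat.lt_or_ge (q + 1) k with h | h
  · have e1 : (i + 1) % k = q + 1 := by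
      rw [← hd, add_assoc, Nat.mul_add_mod, Nat.mod_eq_of_lt h]
    have e2 : (i + 1) / k = j := by
      rw [← hd, add_assoc, Nat.mul_add_div (by omega), Nat.div_eq_of_lt h, add_zero]
    unfold up
    rw [e1, e2, ← hq, ← hj, br_succ']
    ring
  · have hqk : q + 1 = k := by omega
    have e : i + 1 = k * (j + 1) := by rw [← hd, mul_add, mul_one]; omega
    rw [e, up_mul hk]
    unfold up
    rw [← hq, ← hj]
    have h1 : t = t' * t' ^ q := by rw [← ht, ← hqk]; ring
    have h2 : br t' k = 1 + t' * br t' q := by rw [← hqk, br_succ']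
    have h3 : br t' k = br t' q + t' ^ q := by rw [← hqk, br_succ]
    have h4 : 1 - t' * br t' q + t' * br t' q = 1 := by ring
    calc br t' k * L (j + 1) - t' * (t' ^ q * br t' k * L j + br t' q * (L (j + 1) - t * L j))
        = (br t' k - t' * br t' q) * L (j + 1) - (t' * t' ^ q) * br t' k * L j +
          t * (t' * br t' q) * L j := by ring
      _ = L (j + 1) - t * L j := by
          rw [← h1, h2]; ring

lemma up_zero (hk : 1 ≤ k) {L : ℕ → ℂ} (h0 : L 0 = 0) : up k t t' L 0 = 0 := by
  have := up_mul (t := t) (t' := t') hk L 0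
  rw [mul_zero] at this
  rw [this, h0, mul_zero]

lemma ext_g' {M M' : ℕ → ℂ} (h0 : M 0 = M' 0) (h : ∀ i, g t' M i = g t' M' i) : M = M' := by
  funext i
  induction i with
  | zero => exact h0
  | succ i ih =>
    have := h i
    unfold g at this
    rw [ih] at this
    linear_combination this

lemma act_replicate_zero (L : ℕ → ℂ) (q : ℕ) : act t' (List.replicate q 0) L = L := by
  induction q with
  | zero => rfl
  | succ q ih =>
    rw [List.replicate_succ, act_cons]
    have : T t' 0 L = L := by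
      funext j
      exact T_of_le (Nat.zero_le j)
    rw [this, ih]

/-- `q ≤ k` letters `T_R` on a vector whose first `k` colours agree -/
lemma g_rep {M : ℕ → ℂ} (h0 : M 0 = 0) {R : ℕ} (hR : k ≤ R) {y : ℂ}
    (hy : ∀ i < k, g t' M i = y) : ∀ q ≤ k,
    (act t' (List.replicate q R) M 0 = 0 ∧ act t' (List.replicate q R) M R = M R) ∧
    ∀ i, g t' (act t' (List.replicate q R) M) i =
      if i + q < R then g t' M (i + q) else if i < R then t' ^ R * y + (1 - t') * M R
        else g t' M i
  | 0, _ => by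
    refine ⟨⟨by simpa using h0, by simp⟩, fun i => ?_⟩
    simp only [List.replicate_zero, act_nil, add_zero]
    by_cases h : i < R
    · rw [if_pos h]
    · rw [if_neg h, if_neg h]
  | (q+1), hq => by
    obtain ⟨⟨h1, h2⟩, h3⟩ := g_rep h0 hR hy q (by omega)
    rw [List.replicate_succ', act_append, act_cons, act_nil]
    obtain ⟨N, hN⟩ : ∃ N, N = act t' (List.replicate q R) M := ⟨_, rfl⟩
    rw [← hN] at h1 h2 h3
    rw [← hN]
    have hN1 : N 1 = y := by
      have h4 := h3 0
      rw [zero_add, if_pos (by omega : q < R), hy q (by omega)] at h4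
      unfold g at h4
      rw [h1, mul_zero, sub_zero, zero_add] at h4
      exact h4
    refine ⟨⟨T_zero h1 R, by rw [T_of_le le_rfl, h2]⟩, fun i => ?_⟩
    rw [g_T, hN1, h2]
    by_cases hi : i + 1 < R
    · rw [if_pos hi, h3 (i+1)]
      have e : i + 1 + q = i + (q + 1) := by ring
      rw [e, if_pos hi, if_pos (by omega : i < R)]
    · rw [if_neg hi]
      by_cases hi2 : i + 1 = R
      · rw [if_pos hi2, if_neg (by omega), if_pos (by omega)]
      · rw [if_neg hi2, h3 i, if_neg (by omega), if_neg (by omega), if_neg (by omega)]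

/-- `T_(kr)^k` at `t'` on the cable is the cable of `T_r` at `t`. -/
lemma act_up (hk : 1 ≤ k) (ht : t' ^ k = t) {L : ℕ → ℂ} (h0 : L 0 = 0) (r : ℕ) :
    act t' (List.replicate k (k * r)) (up k t t' L) = up k t t' (T t r L) := by
  rcases Nat.eq_zero_or_pos r with hr | hr
  · subst hr
    rw [mul_zero, act_replicate_zero]
    have : T t 0 L = L := by
      funext j
      exact T_of_le (Nat.zero_le j)
    rw [this]
  · have hM0 := up_zero (t := t) (t' := t') hk h0
    have hy : ∀ i < k, g t' (up k t t' L) i = L 1 := by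
      intro i hi
      rw [g_up hk ht, Nat.div_eq_of_lt hi]
      unfold g
      rw [h0, mul_zero, sub_zero, zero_add]
    have hkr : k ≤ k * r := Nat.le_mul_of_pos_right k hr
    obtain ⟨⟨h1, -⟩, h3⟩ := g_rep hM0 hkr hy k le_rfl
    apply ext_g' (t' := t')
    · rw [h1, up_zero hk (T_zero h0 r)]
    · intro i
      rw [h3 i, g_up hk ht (T t r L) i, g_T, up_mul hk]
      have hx : t' ^ (k * r) * L 1 + (1 - t') * (br t' k * L r) = t ^ r * L 1 + (1 - t) * L r := by
        rw [pow_mul, ht, ← mul_assoc, br_mul, ht]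
      rw [hx]
      have c1 : i + k < k * r ↔ i / k + 1 < r := by
        rw [← Nat.add_div_right i (by omega : 0 < k), Nat.div_lt_iff_lt_mul (by omega), mul_comm r k]
      have c2 : i < k * r ↔ i / k < r := by
        rw [Nat.div_lt_iff_lt_mul (by omega), mul_comm r k]
      by_cases h4 : i / k + 1 < r
      · rw [if_pos (c1.2 h4), if_pos h4, g_up hk ht, Nat.add_div_right i (by omega : 0 < k)]
      · rw [if_neg (fun h => h4 (c1.1 h)), if_neg h4]
        by_cases h5 : i / k + 1 = r
        · rw [if_pos (c2.2 (by omega)), if_pos h5]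
        · rw [if_neg (fun h => h5 (by have := c2.1 h; omega)), if_neg h5, g_up hk ht]

lemma act_zero {t : ℂ} (A : List ℕ) {L : ℕ → ℂ} (h0 : L 0 = 0) : act t A L 0 = 0 := by
  induction A generalizing L with
  | nil => exact h0
  | cons r A ih => rw [act_cons]; exact ih (T_zero h0 r)

lemma act_cable (hk : 1 ≤ k) (ht : t' ^ k = t) (A : List ℕ) {L : ℕ → ℂ} (h0 : L 0 = 0) :
    act t' (A.flatMap fun r => List.replicate k (k * r)) (up k t t' L) = up k t t' (act t A L) := by
  induction A generalizing L with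
  | nil => rfl
  | cons r A ih =>
    rw [List.flatMap_cons, act_append, act_up hk ht h0, ih (T_zero h0 r), act_cons]

/-- **TW3** -/
theorem cabling (t t' : ℂ) (k n : ℕ) (hk : 1 ≤ k) (ht : t' ^ k = t) (h1 : ‖t‖ < 1)
    (A : List ℕ) (L : ℕ → ℂ) (h0 : L 0 = 0) (hfix : ∀ j ≤ n, act t A L j = L j) :
    ∃ L' : ℕ → ℂ, ∃ c : ℂ, c ≠ 0 ∧ L' 0 = 0 ∧ (∀ j ≤ n, L' (k * j) = c * L j) ∧
      ∀ j ≤ k * n, act t' (A.flatMap fun r => List.replicate k (k * r)) L' j = L' j := by
  refine ⟨up k t t' L, br t' k, ?_, up_zero hk h0, fun j _ => up_mul hk L j, fun i hi => ?_⟩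
  · intro h
    have := br_mul t' k
    rw [h, mul_zero, ht] at this
    have h2 : t = 1 := by linear_combination this
    rw [h2, norm_one] at h1
    exact lt_irrefl _ h1
  · rw [act_cable hk ht A h0]
    have hik : i / k ≤ n := by
      rw [← Nat.mul_div_cancel_left n (by omega : 0 < k)]
      exact Nat.div_le_div_right hi
    unfold up
    rw [hfix _ hik]
    rcases Nat.eq_zero_or_pos (i % k) with hm | hm
    · rw [hm]; simp
    · have h3 : i / k + 1 ≤ n := by
        by_contra hcon
        have h4 : n ≤ i / k := by omega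
        have h5 := Nat.div_add_mod i k
        have h6 : k * n ≤ k * (i / k) := Nat.mul_le_mul_left k h4
        omega
      rw [hfix _ h3]

end H52TW
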