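import Mathlib

/-! TW5: comparison of `sinh (x (1 + i η)) / (1 + i η)` at `η` and at a larger `H`, e.g. `√3`. -/

namespace H52TW

open Real

/-- imaginary part of `sinh (x (1+iη)) (1-iη)` -/
noncomputable def js (x η : ℝ) : ℝ := cosh x * sin (η * x) - η * sinh x * cos (η * x)

/-- real part of `sinh (x (1+iη)) (1-iη)` -/
noncomputable def rs (x η : ℝ) : ℝ := sinh x * cos (η * x) + η * cosh x * sin (η * x)

lemma sinh_le_mul_cosh {x : ℝ} (hx : 0 ≤ x) : sinh x ≤ x * cosh x := by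
  rcases hx.eq_or_lt with h | h
  · rw [← h]; simp
  · obtain ⟨c, hc, he⟩ := exists_deriv_eq_slope sinh h continuous_sinh.continuousOn
      differentiable_sinh.differentiableOn
    rw [Real.deriv_sinh, sinh_zero, sub_zero, sub_zero] at he
    have h1 : sinh x = x * cosh c := by rw [he]; field_simp
    rw [h1]
    apply mul_le_mul_of_nonneg_left _ hx
    rw [cosh_le_cosh, abs_of_pos hc.1, abs_of_pos h]
    exact hc.2.le

lemma self_le_sinh {x : ℝ} (hx : 0 ≤ x) : x ≤ sinh x := self_le_sinh_iff.mpr hx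

lemma sin_ratio {d Y : ℝ} (hd : 0 ≤ d) (hdY : d ≤ Y) (hY : Y ≤ π) : d * sin Y ≤ Y * sin d := by
  rcases hd.eq_or_lt with h | h
  · rw [← h]; simp
  · have hY0 : 0 < Y := lt_of_lt_of_le h hdY
    have hc := strictConcaveOn_sin_Icc.concaveOn
    have h2 := hc.2 (⟨le_rfl, pi_pos.le⟩ : (0:ℝ) ∈ Set.Icc 0 π) (⟨hY0.le, hY⟩ : Y ∈ Set.Icc 0 π)
      (sub_nonneg.mpr ((div_le_one hY0).mpr hdY) : (0:ℝ) ≤ 1 - d / Y)
      (by positivity : (0:ℝ) ≤ d / Y) (by ring)
    simp only [smul_eq_mul, sin_zero, mul_zero, zero_add] at h2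
    have h3 : d / Y * Y = d := by field_simp
    rw [h3] at h2
    have h4 : Y * (d / Y * sin Y) ≤ Y * sin d := mul_le_mul_of_nonneg_left h2 hY0.le
    have h5 : Y * (d / Y * sin Y) = d * sin Y := by field_simp
    linarith

lemma mul_cos_le_sin {y : ℝ} (h0 : 0 ≤ y) (hπ : y ≤ π) : y * cos y ≤ sin y := by
  rcases lt_or_ge y (π / 2) with h | h
  · have h1 := le_tan h0 h
    have hc : 0 < cos y := cos_pos_of_mem_Ioo ⟨by linarith [pi_pos], h⟩
    rw [tan_eq_sin_div_cos, le_div_iff₀ hc] at h1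
    exact h1
  · have hc : cos y ≤ 0 := cos_nonpos_of_pi_div_two_le_of_le h (by linarith [pi_pos])
    have hs : 0 ≤ sin y := sin_nonneg_of_nonneg_of_le_pi h0 hπ
    nlinarith

lemma mul_cos_lt_sin {y : ℝ} (h0 : 0 < y) (hπ : y ≤ π) : y * cos y < sin y := by
  rcases lt_or_ge y (π / 2) with h | h
  · have h1 := lt_tan h0 h
    have hc : 0 < cos y := cos_pos_of_mem_Ioo ⟨by linarith [pi_pos], h⟩
    rw [tan_eq_sin_div_cos, lt_div_iff₀ hc] at h1
    exact h1
  · rcases hπ.eq_or_lt with h2 | h2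
    · rw [h2]; simp [pi_pos]
    · have hc : cos y ≤ 0 := cos_nonpos_of_pi_div_two_le_of_le h (by linarith [pi_pos])
      have hs : 0 < sin y := sin_pos_of_pos_of_lt_pi h0 h2
      nlinarith

lemma js_nonneg {x η : ℝ} (hx : 0 < x) (h0 : 0 ≤ η) (hπ : η * x ≤ π) : 0 ≤ js x η := by
  have hy0 : 0 ≤ η * x := by positivity
  have h1 := mul_cos_le_sin hy0 hπ
  have h2 := sinh_le_mul_cosh hx.le
  have hs : 0 ≤ sin (η * x) := sin_nonneg_of_nonneg_of_le_pi hy0 hπ
  have hsh : 0 < sinh x := sinh_pos_iff.mpr hx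
  have h3 : 0 ≤ x * js x η := by
    have e : x * js x η = (x * cosh x - sinh x) * sin (η * x) +
        sinh x * (sin (η * x) - (η * x) * cos (η * x)) := by unfold js; ring
    rw [e]
    have a := mul_nonneg (sub_nonneg.mpr h2) hs
    have b := mul_nonneg hsh.le (sub_nonneg.mpr h1)
    linarith
  exact nonneg_of_mul_nonneg_right h3 hx

lemma js_pos {x η : ℝ} (hx : 0 < x) (h0 : 0 < η) (hπ : η * x ≤ π) : 0 < js x η := by
  have hy0 : 0 < η * x := by positivity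
  have h1 := mul_cos_lt_sin hy0 hπ
  have h2 := sinh_le_mul_cosh hx.le
  have hs : 0 ≤ sin (η * x) := sin_nonneg_of_nonneg_of_le_pi hy0.le hπ
  have hsh : 0 < sinh x := sinh_pos_iff.mpr hx
  have h3 : 0 < x * js x η := by
    have e : x * js x η = (x * cosh x - sinh x) * sin (η * x) +
        sinh x * (sin (η * x) - (η * x) * cos (η * x)) := by unfold js; ring
    rw [e]
    have a := mul_nonneg (sub_nonneg.mpr h2) hs
    have b := mul_pos hsh (sub_pos.mpr h1)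
    linarith
  exact (mul_pos_iff_of_pos_left hx).mp h3

/-- cross inequality: the argument of `sinh (x(1+iη))/(1+iη)` increases with `η` -/
lemma cross {x η H : ℝ} (hx : 0 < x) (h0 : 0 ≤ η) (hH : η ≤ H) (hπ : H * x ≤ π) :
    js x η * rs x H ≤ js x H * rs x η := by
  obtain ⟨y, hy⟩ : ∃ y, y = η * x := ⟨_, rfl⟩
  obtain ⟨Y, hY⟩ : ∃ Y, Y = H * x := ⟨_, rfl⟩
  obtain ⟨d, hd⟩ : ∃ d, d = Y - y := ⟨_, rfl⟩
  have hy0 : 0 ≤ y := by rw [hy]; positivity
  have hyY : y ≤ Y := by rw [hy, hY]; exact mul_le_mul_of_nonneg_right hH hx.le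
  have hd0 : 0 ≤ d := by rw [hd]; linarith
  have hdY : d ≤ Y := by rw [hd]; linarith
  have hYπ : Y ≤ π := by rw [hY]; exact hπ
  have hsd : 0 ≤ sin d := sin_nonneg_of_nonneg_of_le_pi hd0 (hdY.trans hYπ)
  have hsy : 0 ≤ sin y := sin_nonneg_of_nonneg_of_le_pi hy0 (hyY.trans hYπ)
  have h1 := sinh_le_mul_cosh hx.le
  have hsh : 0 < sinh x := sinh_pos_iff.mpr hx
  have hxs := self_le_sinh hx.le
  have hch : 1 ≤ cosh x := one_le_cosh x
  -- the two pieces
  have p1 : d * sinh x ^ 2 * cos d ≤ x * sinh x * cosh x * sin d := by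
    have a : d * cos d ≤ sin d := mul_cos_le_sin hd0 (hdY.trans hYπ)
    have b : sinh x ^ 2 * (d * cos d) ≤ sinh x ^ 2 * sin d :=
      mul_le_mul_of_nonneg_left a (by positivity)
    have c : sinh x ^ 2 * sin d ≤ (sinh x * (x * cosh x)) * sin d := by
      apply mul_le_mul_of_nonneg_right _ hsd
      rw [pow_two]; exact mul_le_mul_of_nonneg_left h1 hsh.le
    linarith
  have p2 : x * (d * sin Y * sin y) ≤ y * Y * (sinh x * cosh x) * sin d := by
    have a : d * sin Y ≤ Y * sin d := sin_ratio hd0 hdY hYπ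
    have b : sin y ≤ y := sin_le hy0
    have hYs : 0 ≤ Y * sin d := mul_nonneg (hy0.trans hyY) hsd
    have c : d * sin Y * sin y ≤ Y * sin d * y := by
      calc d * sin Y * sin y ≤ (Y * sin d) * sin y := mul_le_mul_of_nonneg_right a hsy
        _ ≤ (Y * sin d) * y := mul_le_mul_of_nonneg_left b hYs
    have e : x ≤ sinh x * cosh x := by nlinarith
    have g : 0 ≤ Y * sin d * y := mul_nonneg hYs hy0
    calc x * (d * sin Y * sin y) ≤ x * (Y * sin d * y) := mul_le_mul_of_nonneg_left c hx.le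
      _ ≤ (sinh x * cosh x) * (Y * sin d * y) := mul_le_mul_of_nonneg_right e g
      _ = _ := by ring
  have hsd' : sin d = sin Y * cos y - cos Y * sin y := by rw [hd, sin_sub]
  have hcd' : cos d = cos Y * cos y + sin Y * sin y := by rw [hd, cos_sub]
  have hHx : H * x = Y := hY.symm
  have hηx : η * x = y := hy.symm
  have key : x * (x * (js x H * rs x η - js x η * rs x H)) =
      x * (x * sinh x * cosh x * sin d - d * sinh x ^ 2 * cos d) +
      (y * Y * (sinh x * cosh x) * sin d - x * (d * sin Y * sin y)) := by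
    unfold js rs
    rw [hHx, hηx, hsd', hcd']
    have hc2 : cosh x ^ 2 = 1 + sinh x ^ 2 := by rw [cosh_sq]; ring
    have e1 : x * (x * ((cosh x * sin Y - H * sinh x * cos Y) * (sinh x * cos y + η * cosh x * sin y) -
      (cosh x * sin y - η * sinh x * cos y) * (sinh x * cos Y + H * cosh x * sin Y))) =
      x^2 * sinh x * cosh x * (sin Y * cos y - cos Y * sin y) +
      (η * x) * (H * x) * (sinh x * cosh x) * (sin Y * cos y - cos Y * sin y)
      - x * ((H * x) - (η * x)) * (cosh x ^ 2 * (sin Y * sin y) + sinh x ^ 2 * (cos Y * cos y)) := by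
      ring
    rw [e1, hηx, hHx, hc2, hd]
    ring
  have h5 : 0 ≤ x * (x * (js x H * rs x η - js x η * rs x H)) := by
    rw [key]
    have a := mul_nonneg hx.le (sub_nonneg.mpr p1)
    have b := sub_nonneg.mpr p2
    linarith
  have h6 := nonneg_of_mul_nonneg_right (nonneg_of_mul_nonneg_right h5 hx) hx
  linarith

lemma rs_nonneg {x η H : ℝ} (hx : 0 < x) (h0 : 0 ≤ η) (hH : η ≤ H) (hπ : H * x ≤ π)
    (hrs : 0 ≤ rs x H) : 0 ≤ rs x η := by
  rcases h0.eq_or_lt with h | h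
  · rw [← h]; unfold rs; simp [hx.le]
  · have hH0 : 0 < H := lt_of_lt_of_le h hH
    have h1 := cross hx h0 hH hπ
    have h2 := js_nonneg hx h0 ((mul_le_mul_of_nonneg_right hH hx.le).trans hπ)
    have h3 := js_pos hx hH0 hπ
    have h4 : 0 ≤ js x H * rs x η := (mul_nonneg h2 hrs).trans h1
    exact nonneg_of_mul_nonneg_right h4 h3

/-- modulus comparison, general `H` -/
lemma modulus {x η H : ℝ} (hx : 0 < x) (h0 : 0 ≤ η) (hH : η ≤ H) (hπ : H * x ≤ π) :
    (1 + η^2) * (sinh x ^ 2 + sin (H * x) ^ 2) ≤ (1 + H^2) * (sinh x ^ 2 + sin (η * x) ^ 2) := by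
  obtain ⟨y, hy⟩ : ∃ y, y = η * x := ⟨_, rfl⟩
  obtain ⟨Y, hY⟩ : ∃ Y, Y = H * x := ⟨_, rfl⟩
  have hy0 : 0 ≤ y := by rw [hy]; positivity
  have hyY : y ≤ Y := by rw [hy, hY]; exact mul_le_mul_of_nonneg_right hH hx.le
  have hYπ : Y ≤ π := by rw [hY]; exact hπ
  have hsy : 0 ≤ sin y := sin_nonneg_of_nonneg_of_le_pi hy0 (hyY.trans hYπ)
  have hsY : 0 ≤ sin Y := sin_nonneg_of_nonneg_of_le_pi (hy0.trans hyY) hYπ
  have hxs := self_le_sinh hx.le
  have hS : x^2 ≤ sinh x ^ 2 := pow_le_pow_left₀ hx.le hxs 2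
  have a : y * sin Y ≤ Y * sin y := sin_ratio hy0 hyY hYπ
  have a2 : (y * sin Y)^2 ≤ (Y * sin y)^2 := pow_le_pow_left₀ (mul_nonneg hy0 hsY) a 2
  have b : sin Y ^ 2 - sin y ^ 2 ≤ Y^2 - y^2 := by
    have e : sin Y ^ 2 - sin y ^ 2 = sin (Y - y) * sin (Y + y) := by
      rw [sin_sub, sin_add]
      have h1 := sin_sq_add_cos_sq Y
      have h2 := sin_sq_add_cos_sq y
      linear_combination (sin y)^2 * h1 - (sin Y)^2 * h2
    rw [e]
    have h1 : sin (Y - y) ≤ Y - y := sin_le (by linarith)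
    have h0' : 0 ≤ sin (Y - y) := sin_nonneg_of_nonneg_of_le_pi (by linarith) (by linarith)
    have h2 : sin (Y + y) ≤ Y + y := sin_le (by linarith)
    calc sin (Y - y) * sin (Y + y) ≤ sin (Y - y) * (Y + y) := mul_le_mul_of_nonneg_left h2 h0'
      _ ≤ (Y - y) * (Y + y) := mul_le_mul_of_nonneg_right h1 (by linarith)
      _ = _ := by ring
  rw [← hY, ← hy]
  have hHη : η^2 ≤ H^2 := pow_le_pow_left₀ h0 hH 2
  have h5 : x^2 * ((1 + η^2) * (sinh x ^ 2 + sin Y ^ 2)) ≤ x^2 * ((1 + H^2) * (sinh x ^ 2 + sin y ^ 2)) := by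
    have e1 : x^2 * ((1 + H^2) * (sinh x ^ 2 + sin y ^ 2)) - x^2 * ((1 + η^2) * (sinh x ^ 2 + sin Y ^ 2))
        = (Y^2 - y^2) * (sinh x ^ 2 - x^2) + x^2 * ((Y^2 - y^2) - (sin Y ^ 2 - sin y ^ 2)) +
          ((Y * sin y)^2 - (y * sin Y)^2) := by
      rw [hY, hy]; ring
    have c1 : 0 ≤ (Y^2 - y^2) * (sinh x ^ 2 - x^2) := by
      apply mul_nonneg _ (by linarith)
      nlinarith
    have c2 : 0 ≤ x^2 * ((Y^2 - y^2) - (sin Y ^ 2 - sin y ^ 2)) := mul_nonneg (by positivity) (by linarith)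
    linarith
  exact le_of_mul_le_mul_left h5 (by positivity)

/-- **TW5 (a)** -/
theorem TW5a {x η : ℝ} (hx : 0 < x) (h0 : 0 ≤ η) (h3 : η ≤ √3) (hπ : √3 * x ≤ π) :
    (sinh x ^ 2 + sin (√3 * x) ^ 2) / 4 ≤ (sinh x ^ 2 + sin (η * x) ^ 2) / (1 + η^2) := by
  have h := modulus hx h0 h3 hπ
  have hs : (√3)^2 = (3:ℝ) := Real.sq_sqrt (by norm_num)
  rw [hs] at h
  rw [div_le_div_iff₀ (by norm_num) (by positivity)]
  linarith

/-- **TW5 (b)** -/
theorem TW5b {x η : ℝ} (hx : 0 < x) (h0 : 0 ≤ η) (h3 : η ≤ √3) (hπ : √3 * x ≤ π)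
    (hrs : 0 ≤ rs x √3) :
    0 ≤ js x η ∧ 0 ≤ rs x η ∧ js x η * rs x √3 ≤ js x √3 * rs x η :=
  ⟨js_nonneg hx h0 ((mul_le_mul_of_nonneg_right h3 hx.le).trans hπ), rs_nonneg hx h0 h3 hπ hrs,
    cross hx h0 h3 hπ⟩

end H52TW
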