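import Pool.Agent.Helper69.LZ.Words
import Pool.Agent.Helper54.TW.StepL
import Pool.Agent.Helper27.TW.Defs
import Pool.Agent.Helper52.TW.Five
import Pool.Agent.Helper52.TW.Cable

/-! TW8: no word in the `T_r` with a letter `T_(n+1)` fixes a vector outside of the sector. -/

set_option autoImplicit false

namespace H52TW

open Matrix Polynomial Pool.Agent.Helper76.Conway Pool.Agent.Helper76.Conway.Top
  Pool.Agent.Helper99.ZB Pool.Agent.Helper69.S4 Pool.Agent.Helper87.LZ Pool.Agent.Helper69.LZ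

/-- The letters of the word fix no vector, for all parameters outside of the sector. -/
def FreeS (n : ℕ) (w : List ℕ) : Prop :=
  ∀ s : ℂ, s ≠ 0 → ‖s‖ < 1 → (s⁻¹ - s).im ^ 2 < 3 * (s⁻¹ - s).re ^ 2 →
    ∀ L : ℕ → ℂ, L 0 = 0 → (∀ j, n < j → L j = 0) → run (s ^ 2) w L = L → L = 0

section

variable {G : ℕ → Type} [∀ n, Group (G n)] {sg : ∀ n, ℕ → G n} {N : ∀ n, G n → ℤ[X]}

theorem zerosS (h : Mk G sg N) {n : ℕ} {w : List ℕ} (hw : ∀ a ∈ w, a < n) (hf : FreeS n w) {z : ℂ}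
    (hz : aeval z (N n (V (sg n) w)) = 0) : 3 * z.re ^ 2 ≤ z.im ^ 2 := by
  by_contra hcon
  push Not at hcon
  obtain ⟨s, hs0, hs1, rfl⟩ := exists_s z
  rcases hs1.lt_or_eq with h1 | h1
  · have h2 := eval_eq h hs0 h1 n w hw
    rw [hz, zero_mul, zero_mul] at h2
    obtain ⟨L, hL, hL0, hLn, hLf⟩ := exists_fixed hs0 h1 hw h2.symm
    exact hL (hf s hs0 h1 hcon L hL0 hLn hLf)
  · have e : (s⁻¹ - s).re = 0 := by
      rw [Complex.sub_re, Complex.inv_re, Complex.normSq_eq_norm_sq, h1]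
      norm_num
    rw [e] at hcon
    nlinarith [sq_nonneg (s⁻¹ - s).im]

/-- Log-concavity and the zero-free sector for a positive word without fixed vectors. -/
theorem main_of_freeS (h : Mk G sg N) {n : ℕ} {w : List ℕ} (hw : ∀ a ∈ w, a < n)
    (hf : FreeS n w) :
    (∀ j : ℤ, cz (N n (V (sg n) w)) (j + 2) * cz (N n (V (sg n) w)) (j - 2) ≤
      cz (N n (V (sg n) w)) j ^ 2) ∧
    ∀ z : ℂ, aeval z (N n (V (sg n) w)) = 0 → 3 * z.re ^ 2 ≤ z.im ^ 2 := by
  obtain ⟨L, hL⟩ := parity h hw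
  exact ⟨logConcave_main _ L hL fun _ z hz => zerosS h hw hf hz, fun z hz => zerosS h hw hf hz⟩

end

theorem act_conj (t : ℂ) (A : List ℕ) (L : ℕ → ℂ) :
    act ((starRingEnd ℂ) t) A (fun j => (starRingEnd ℂ) (L j)) =
      fun j => (starRingEnd ℂ) (act t A L j) := by
  induction A generalizing L with
  | nil => rfl
  | cons r A ih =>
    rw [act_cons, act_cons, ← ih]
    congr 1
    funext j
    unfold T
    split_ifs
    · rw [map_sub, map_mul, map_pow]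
    · rfl

/-- the parameters -/
theorem params {s : ℂ} (h0 : s ≠ 0) (h1 : ‖s‖ < 1)
    (hz : (s⁻¹ - s).im ^ 2 < 3 * (s⁻¹ - s).re ^ 2) :
    ∃ α β : ℝ, 0 < α ∧ |β| ≤ √3 * α ∧ s ^ 2 = Complex.exp (-2 * ((α : ℂ) + β * Complex.I)) := by
  have hn : 0 < ‖s‖ := norm_pos_iff.2 h0
  have hre : (s⁻¹ - s).re = s.re * (1 / ‖s‖ ^ 2 - 1) := by
    rw [Complex.sub_re, Complex.inv_re, Complex.normSq_eq_norm_sq]
    ring
  have hre0 : s.re ≠ 0 := by
    intro h
    rw [hre, h, zero_mul] at hz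
    nlinarith [sq_nonneg (s⁻¹ - s).im]
  -- choose the sign
  obtain ⟨u, hu2, hun, hure, huz⟩ : ∃ u : ℂ, u ^ 2 = s ^ 2 ∧ ‖u‖ = ‖s‖ ∧ 0 < u.re ∧
      (u⁻¹ - u).im ^ 2 < 3 * (u⁻¹ - u).re ^ 2 := by
    rcases lt_or_gt_of_ne hre0 with h | h
    · refine ⟨-s, by ring, norm_neg s, by rw [Complex.neg_re]; linarith, ?_⟩
      have e : (-s)⁻¹ - -s = -(s⁻¹ - s) := by rw [inv_neg]; ring
      rw [e, Complex.neg_im, Complex.neg_re, neg_sq, neg_sq]
      exact hz
    · exact ⟨s, rfl, rfl, h, hz⟩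
  have hu0 : u ≠ 0 := by
    intro h; rw [h] at hure; simp at hure
  refine ⟨-Real.log ‖u‖, -u.arg, ?_, ?_, ?_⟩
  · rw [hun]
    have := Real.log_neg hn h1
    linarith
  · -- the sector
    obtain ⟨α, hα⟩ : ∃ α, α = -Real.log ‖u‖ := ⟨_, rfl⟩
    obtain ⟨β, hβ⟩ : ∃ β, β = -u.arg := ⟨_, rfl⟩
    rw [← hα, ← hβ]
    have hα0 : 0 < α := by
      rw [hα, hun]
      have := Real.log_neg hn h1
      linarith
    have hβ1 : |β| < Real.pi / 2 := by
      rw [hβ, abs_neg]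
      exact Complex.abs_arg_lt_pi_div_two_iff.2 (Or.inl hure)
    have hu : u = Complex.exp (-((α : ℂ) + β * Complex.I)) := by
      have e : -((α : ℂ) + β * Complex.I) = Complex.log u := by
        rw [hα, hβ, Complex.log]
        push_cast
        ring
      rw [e, Complex.exp_log hu0]
    have hzz : u⁻¹ - u = 2 * Complex.sinh ((α : ℂ) + β * Complex.I) := by
      rw [hu, ← Complex.exp_neg, neg_neg, Complex.sinh]
      ring
    have hs : Complex.sinh ((α : ℂ) + β * Complex.I) =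
        ((Real.sinh α * Real.cos β : ℝ) : ℂ) + ((Real.cosh α * Real.sin β : ℝ) : ℂ) * Complex.I := by
      rw [Complex.sinh_add, Complex.sinh_mul_I, Complex.cosh_mul_I]
      push_cast
      ring
    have hgen : ∀ p q : ℝ, (2 * ((p : ℂ) + (q : ℂ) * Complex.I)).re = 2 * p ∧
        (2 * ((p : ℂ) + (q : ℂ) * Complex.I)).im = 2 * q := by
      intro p q
      constructor <;> simp
    have e1 : (u⁻¹ - u).re = 2 * (Real.sinh α * Real.cos β) := by
      rw [hzz, hs]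
      exact (hgen _ _).1
    have e2 : (u⁻¹ - u).im = 2 * (Real.cosh α * Real.sin β) := by
      rw [hzz, hs]
      exact (hgen _ _).2
    rw [e1, e2] at huz
    have h3 : (Real.cosh α * Real.sin β) ^ 2 < 3 * (Real.sinh α * Real.cos β) ^ 2 := by linarith
    have hb0 : 0 ≤ |β| := abs_nonneg β
    have hcos : 0 < Real.cos |β| := Real.cos_pos_of_mem_Ioo ⟨by linarith [Real.pi_pos], hβ1⟩
    have hsin : 0 ≤ Real.sin |β| :=
      Real.sin_nonneg_of_nonneg_of_le_pi hb0 (by linarith [Real.pi_pos])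
    have hsh : 0 < Real.sinh α := Real.sinh_pos_iff.2 hα0
    have hch : 0 < Real.cosh α := Real.cosh_pos α
    have c1 : Real.cos |β| = Real.cos β := Real.cos_abs β
    have c2 : Real.sin |β| ^ 2 = Real.sin β ^ 2 := by
      rcases abs_choice β with h | h <;> rw [h]
      rw [Real.sin_neg, neg_sq]
    have h4 : (Real.cosh α * Real.sin |β|) ^ 2 ≤ (√3 * (Real.sinh α * Real.cos |β|)) ^ 2 := by
      rw [mul_pow, c2, mul_pow (√3), Real.sq_sqrt (by norm_num : (0:ℝ) ≤ 3), c1, ← mul_pow]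
      exact h3.le
    have h5 : Real.cosh α * Real.sin |β| ≤ √3 * (Real.sinh α * Real.cos |β|) :=
      (abs_le_of_sq_le_sq' h4 (by positivity)).2
    have h6 := mul_cos_le_sin hb0 (by linarith [Real.pi_pos] : |β| ≤ Real.pi)
    have h7 := sinh_le_mul_cosh hα0.le
    have h8 : (Real.cosh α * Real.cos |β|) * |β| ≤ (Real.cosh α * Real.cos |β|) * (√3 * α) := by
      calc (Real.cosh α * Real.cos |β|) * |β| = Real.cosh α * (|β| * Real.cos |β|) := by ring
        _ ≤ Real.cosh α * Real.sin |β| := mul_le_mul_of_nonneg_left h6 hch.le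
        _ ≤ √3 * (Real.sinh α * Real.cos |β|) := h5
        _ ≤ √3 * ((α * Real.cosh α) * Real.cos |β|) := by
            apply mul_le_mul_of_nonneg_left _ (Real.sqrt_nonneg 3)
            exact mul_le_mul_of_nonneg_right h7 hcos.le
        _ = _ := by ring
    exact le_of_mul_le_mul_left h8 (by positivity)
  · rw [← hu2]
    have e : u ^ 2 = Complex.exp (2 * Complex.log u) := by
      rw [two_mul, Complex.exp_add, Complex.exp_log hu0]; ring
    rw [e]
    congr 1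
    rw [Complex.log]
    push_cast
    ring

/-- from the coordinates `Λ` to `FreeS`; negative arguments by conjugation -/
theorem freeS_of_act {n : ℕ} (A : List ℕ)
    (h : ∀ (t : ℂ) (α β : ℝ), 0 < α → 0 ≤ β → β ≤ √3 * α →
      t = Complex.exp (-2 * ((α : ℂ) + β * Complex.I)) → ∀ L : ℕ → ℂ, L 0 = 0 →
      L (n + 1) = 0 → (∀ j ≤ n + 1, act t A L j = L j) → ∀ j ≤ n + 1, L j = 0) :
    FreeS n (wd A) := by
  intro s hs0 hs1 hk L hL0 hLn hfix
  rw [run_wd _ _ hL0] at hfix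
  obtain ⟨α, β, hα, hβ, ht⟩ := params hs0 hs1 hk
  have h1 : ∀ j ≤ n + 1, L j = 0 := by
    rcases le_total 0 β with hb | hb
    · rw [abs_of_nonneg hb] at hβ
      exact h (s ^ 2) α β hα hb hβ ht L hL0 (hLn _ (by omega)) fun j _ => by rw [hfix]
    · rw [abs_of_nonpos hb] at hβ
      have h2 := h ((starRingEnd ℂ) (s ^ 2)) α (-β) hα (by linarith) hβ (by
        rw [ht, ← Complex.exp_conj]
        congr 1
        rw [map_mul, map_add, map_mul, Complex.conj_ofReal, Complex.conj_ofReal, Complex.conj_I,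
          map_neg, map_ofNat]
        push_cast
        ring) (fun j => (starRingEnd ℂ) (L j)) (by simp [hL0]) (by simp [hLn (n + 1) (by omega)])
        (fun j _ => by rw [act_conj, hfix])
      intro j hj
      have := h2 j hj
      simpa using this
  funext j
  rcases le_or_gt j (n + 1) with hj | hj
  · exact h1 j hj
  · exact hLn j (by omega)

/-- cabling (TW3) as a hypothesis -/
def Cabling : Prop :=
  ∀ (t t' : ℂ) (k n : ℕ), 1 ≤ k → t' ^ k = t → ‖t‖ < 1 → ‖t'‖ < 1 →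
    ∀ (A : List ℕ), (∀ r ∈ A, r ≤ n) → ∀ L : ℕ → ℂ, L 0 = 0 → (∀ j ≤ n, act t A L j = L j) →
    ∃ L' : ℕ → ℂ, ∃ c : ℂ, c ≠ 0 ∧ L' 0 = 0 ∧ (∀ j ≤ n, L' (k * j) = c * L j) ∧
      ∀ j ≤ k * n, act t' (A.flatMap fun r => List.replicate k (k * r)) L' j = L' j

/-- the scalar inequality for small `a` (TW4), strong form: uniform in `b ≤ √3 a` and all `r` -/
def Star : Prop :=
  ∃ l : ℝ → ℝ, (∀ x, 0 ≤ x → 0 ≤ l x) ∧ (∀ x x' : ℝ, x ≤ x' → l x ≤ l x') ∧
    (∀ x, 0 < x → l x < x) ∧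
    ∃ a0 : ℝ, 0 < a0 ∧ ∀ a b : ℝ, 0 < a → a ≤ a0 → 0 ≤ b → b ≤ √3 * a → ∀ r : ℕ, 2 ≤ r →
      ‖Pool.Agent.Helper27.LZ.D ((a : ℂ) + b * Complex.I) r ^ 2 - 1‖ +
          Real.cosh (l (r * a) + l ((r + 1) * a) - a) <
        ‖Pool.Agent.Helper27.LZ.D ((a : ℂ) + b * Complex.I) r‖ ^ 2 *
          Real.cosh (a + l ((r + 1) * a) - l (r * a))

/-- the scalar inequality for small `a` (TW4), weak form: `η = b / a` and a bound `X` for
`(r + 1) a` are fixed; the path `l` may be negative and may go down with slope `≥ -1` -/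
def StarW : Prop :=
  ∃ l : ℝ → ℝ, (∃ δ : ℝ, 0 < δ ∧ ∀ x, 0 ≤ x → x ≤ δ → 0 ≤ l x) ∧
    (∀ x x' : ℝ, 0 ≤ x → x ≤ x' → l x ≤ l x' + (x' - x)) ∧
    (∀ x, 0 < x → l x < x) ∧
    ∀ η : ℝ, 0 ≤ η → η ≤ √3 → ∀ X : ℝ, 0 < X →
      ∃ a0 : ℝ, 0 < a0 ∧ ∀ a : ℝ, 0 < a → a ≤ a0 → ∀ r : ℕ, 2 ≤ r → ((r : ℝ) + 1) * a ≤ X →
      ‖Pool.Agent.Helper27.LZ.D ((a : ℂ) + ((η * a : ℝ) : ℂ) * Complex.I) r ^ 2 - 1‖ +
          Real.cosh (l (r * a) + l ((r + 1) * a) - a) <
        ‖Pool.Agent.Helper27.LZ.D ((a : ℂ) + ((η * a : ℝ) : ℂ) * Complex.I) r‖ ^ 2 *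
          Real.cosh (a + l ((r + 1) * a) - l (r * a))

theorem starW_of_star (h : Star) : StarW := by
  obtain ⟨l, hl0, hmono, hlt, a0, ha0, hS⟩ := h
  refine ⟨l, ⟨1, one_pos, fun x hx _ => hl0 x hx⟩, fun x x' _ hx => ?_, hlt, ?_⟩
  · have := hmono x x' hx
    linarith
  · intro η h0 h3 X _
    refine ⟨a0, ha0, fun a ha haa r hr _ => ?_⟩
    exact hS a (η * a) ha haa (by positivity) (mul_le_mul_of_nonneg_right h3 ha.le) r hr

/-- **TW8** -/
theorem freeS_of (hcab : Cabling) (hstar : StarW) {n : ℕ} {A : List ℕ}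
    (hA : ∀ r ∈ A, r ≤ n + 1) (hn : n + 1 ∈ A) : FreeS n (wd A) := by
  refine freeS_of_act A ?_
  intro t α β hα hβ0 hβ ht L hL0 hLn hfix
  obtain ⟨l, ⟨δ, hδ, hl0⟩, hmono, hlt, hS'⟩ := hstar
  obtain ⟨a1, ha1, hS⟩ := hS' (β / α) (by positivity) (by rw [div_le_iff₀ hα]; exact hβ)
    (((n + 1 : ℕ) : ℝ) * α) (by positivity)
  obtain ⟨a0, ha0d⟩ : ∃ a0, a0 = min a1 (δ / 2) := ⟨_, rfl⟩
  have ha0 : 0 < a0 := by rw [ha0d]; exact lt_min ha1 (by positivity)
  obtain ⟨m, hm⟩ := exists_nat_gt (α / a0)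
  obtain ⟨k, hk⟩ : ∃ k, k = m + 1 := ⟨_, rfl⟩
  have hk1 : 1 ≤ k := by omega
  have hk0 : (0:ℝ) < k := by exact_mod_cast hk1
  obtain ⟨a, ha⟩ : ∃ a, a = α / k := ⟨_, rfl⟩
  obtain ⟨b, hb⟩ : ∃ b, b = β / k := ⟨_, rfl⟩
  have hapos : 0 < a := by rw [ha]; positivity
  have hak : (k:ℝ) * a = α := by rw [ha]; field_simp
  have hbk : (k:ℝ) * b = β := by rw [hb]; field_simp
  have hbη : b = β / α * a := by rw [hb, ha]; field_simp
  have haa : a ≤ a0 := by
    rw [ha, div_le_iff₀ hk0]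
    rw [div_lt_iff₀ ha0] at hm
    have : (k:ℝ) = m + 1 := by rw [hk]; push_cast; ring
    rw [this]
    nlinarith
  have haa1 : a ≤ a1 := haa.trans (by rw [ha0d]; exact min_le_left _ _)
  have haδ : 2 * a ≤ δ := by
    have : a ≤ δ / 2 := haa.trans (by rw [ha0d]; exact min_le_right _ _)
    linarith
  obtain ⟨t', ht'⟩ : ∃ t', t' = Complex.exp (-2 * ((a : ℂ) + b * Complex.I)) := ⟨_, rfl⟩
  have htk : t' ^ k = t := by
    rw [ht', ht, ← Complex.exp_nat_mul]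
    congr 1
    rw [← hak, ← hbk]
    push_cast
    ring
  have hnt : ‖t‖ < 1 := by
    rw [ht, Complex.norm_exp]
    apply Real.exp_lt_one_iff.2
    simp [hα]
  have hnt' : ‖t'‖ < 1 := by
    rw [ht', Complex.norm_exp]
    apply Real.exp_lt_one_iff.2
    simp [hapos]
  obtain ⟨L', c, hc, hL'0, hL'k, hL'f⟩ := hcab t t' k (n+1) hk1 htk hnt hnt' A hA L hL0 hfix
  have hend : ∀ j ≤ k * (n + 1), L' j = 0 := by
    refine Pool.Agent.Helper54.TW.no_fixed_SS (l := fun r : ℕ => l (r * a)) hapos ht'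
      (hl0 _ (by positivity) (by push_cast; exact haδ)) ?_ ?_ ?_
      (A.flatMap fun r => List.replicate k (k * r)) ?_ (Or.inl ?_) hL'0 ?_ hL'f
    · intro j _
      have := hmono (((j + 2 : ℕ) : ℝ) * a) (((j + 3 : ℕ) : ℝ) * a) (by positivity) (by
        apply mul_le_mul_of_nonneg_right _ hapos.le; push_cast; linarith)
      show l (((j + 2 : ℕ) : ℝ) * a) ≤ l (((j + 3 : ℕ) : ℝ) * a) + a
      have e : ((j + 3 : ℕ) : ℝ) * a - ((j + 2 : ℕ) : ℝ) * a = a := by push_cast; ring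
      linarith
    · intro j _
      have := hlt (((j + 2 : ℕ) : ℝ) * a) (by positivity)
      show l (((j + 2 : ℕ) : ℝ) * a) < ((j : ℝ) + 2) * a
      have e : ((j + 2 : ℕ) : ℝ) = (j : ℝ) + 2 := by push_cast; ring
      rw [e] at this ⊢
      exact this
    · intro j hj
      have h1 := hS a hapos haa1 (j + 2) (by omega) (by
        have h2 : ((j + 3 : ℕ) : ℝ) ≤ ((k * (n + 1) : ℕ) : ℝ) := by exact_mod_cast hj
        calc (((j + 2 : ℕ) : ℝ) + 1) * a = ((j + 3 : ℕ) : ℝ) * a := by push_cast; ring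
          _ ≤ ((k * (n + 1) : ℕ) : ℝ) * a := mul_le_mul_of_nonneg_right h2 hapos.le
          _ = ((n + 1 : ℕ) : ℝ) * ((k : ℝ) * a) := by push_cast; ring
          _ = _ := by rw [hak])
      rw [← hbη] at h1
      have e : ((j + 2 : ℕ) : ℝ) + 1 = ((j + 3 : ℕ) : ℝ) := by push_cast; ring
      rw [e] at h1
      exact h1
    · intro r hr
      obtain ⟨x, hx, hr⟩ := List.mem_flatMap.1 hr
      rw [List.mem_replicate] at hr
      rw [hr.2]
      exact Nat.mul_le_mul_left k (hA x hx)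
    · rw [List.mem_flatMap]
      exact ⟨n + 1, hn, List.mem_replicate.2 ⟨by omega, rfl⟩⟩
    · rw [hL'k (n+1) le_rfl, hLn, mul_zero]
  intro j hj
  have h1 := hL'k j hj
  rw [hend (k * j) (Nat.mul_le_mul_left k hj)] at h1
  rcases mul_eq_zero.1 h1.symm with h | h
  · exact absurd h hc
  · exact h

theorem cab : Cabling := fun t t' k n hk htk ht _ A _ L h0 hfix =>
  cabling t t' k n hk htk ht A L h0 hfix

theorem freeS (hstar : StarW) {n : ℕ} {A : List ℕ}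
    (hA : ∀ r ∈ A, r ≤ n + 1) (hn : n + 1 ∈ A) : FreeS n (wd A) :=
  freeS_of cab hstar hA hn

end H52TW
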