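import Pool.Agent.Helper52.TW.Five
import Pool.Agent.Helper27.TW.Defs

/-! Leaf TW5 in the chair's form. -/

namespace H52TW

open Pool.Agent.Helper27.TW in
theorem eta : Pool.Agent.Helper27.TW.Eta where
  s := fun x η h0 h3 hx hπ => TW5a hx h0 h3 hπ
  q := fun x η h0 h3 hx hπ hrs => by
    have e1 : ∀ x η : ℝ, Pool.Agent.Helper27.TW.js x η = H52TW.js x η := by
      intro x η; unfold Pool.Agent.Helper27.TW.js H52TW.js; ring
    have e2 : ∀ x η : ℝ, Pool.Agent.Helper27.TW.rs x η = H52TW.rs x η := by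
      intro x η; unfold Pool.Agent.Helper27.TW.rs H52TW.rs; ring
    rw [e2] at hrs
    rw [e1, e1, e2, e2]
    exact TW5b hx h0 h3 hπ hrs

end H52TW
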