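import Pool.Agent.Helper27.LZ.R
import Pool.Agent.Helper52.TW.Five

/-! Leaf (S): small `r`, path `0`. -/

set_option autoImplicit false

namespace H52TW

open Pool.Agent.Helper27.LZ

lemma cosh_three_tenths : Real.cosh (3/10) ≤ 105/100 := by
  have h := Real.cosh_le_exp_half_sq (3/10 : ℝ)
  have h2 : Real.exp ((3/10 : ℝ)^2 / 2) ≤ 105/100 := by
    have h3 := Real.exp_bound' (x := (3/10 : ℝ)^2/2) (n := 2) (by positivity) (by norm_num)
      (by norm_num)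
    refine h3.trans ?_
    simp [Finset.sum_range_succ, Nat.factorial]
    norm_num
  exact h.trans h2

theorem small {η a : ℝ} (h0 : 0 ≤ η) (h3 : η ≤ √3) (ha : 0 < a) {r : ℕ} (hr : 2 ≤ r)
    (hra : ((r : ℝ) + 1) * a ≤ 3/10) :
    ‖D ((a : ℂ) + ((η * a : ℝ) : ℂ) * Complex.I) r ^ 2 - 1‖ + Real.cosh a <
      ‖D ((a : ℂ) + ((η * a : ℝ) : ℂ) * Complex.I) r‖ ^ 2 * Real.cosh a := by
  obtain ⟨b, hb⟩ : ∃ b, b = η * a := ⟨_, rfl⟩
  rw [← hb]
  have hb0 : 0 ≤ b := by rw [hb]; positivity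
  have hs3 : √3 ≤ 7/4 := by
    rw [Real.sqrt_le_left (by norm_num)]; norm_num
  have hb1 : b ≤ 7/4 * a := by
    rw [hb]; exact mul_le_mul_of_nonneg_right (h3.trans hs3) ha.le
  have hr2 : (2:ℝ) ≤ r := by exact_mod_cast hr
  have hra' : (r:ℝ) * a ≤ 3/10 := by nlinarith only [hra, ha]
  have hsh : 0 < Real.sinh a := Real.sinh_pos_iff.2 ha
  have hne : Complex.sinh ((a : ℂ) + b * Complex.I) ≠ 0 := by
    intro h
    have h1 := norm_sinh_sq a b
    rw [h, norm_zero] at h1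
    nlinarith only [h1, sq_nonneg (Real.sin b), hsh, pow_pos hsh 2]
  have him := D_im ha.le hne (R := 3/10) r hra'
  have hrb : (r:ℝ) * |b| ≤ 1 := by
    rw [abs_of_nonneg hb0]
    have : (r:ℝ) * b ≤ r * (7/4 * a) := mul_le_mul_of_nonneg_left hb1 (by linarith)
    linarith
  have hre := D_re hne r hrb
  obtain ⟨q, hq⟩ : ∃ q, q = D ((a : ℂ) + b * Complex.I) r := ⟨_, rfl⟩
  rw [← hq] at him hre ⊢
  have hsin : |Real.sin b| ≤ 7/4 * a := by
    have : |Real.sin b| ≤ |b| := Real.abs_sin_le_abs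
    rw [abs_of_nonneg hb0] at this
    linarith
  have hA : 0 ≤ (r:ℝ)^3 - r := by
    have : (r:ℝ)^3 - r = r * ((r-1) * (r+1)) := by ring
    rw [this]
    exact mul_nonneg (by linarith) (mul_nonneg (by linarith) (by linarith))
  have him2 : |q.im| ≤ 105/100 * Real.sinh a * (7/4 * a) * (((r:ℝ)^3 - r)/3) := by
    refine him.trans ?_
    apply mul_le_mul_of_nonneg_right _ (by linarith)
    apply mul_le_mul _ hsin (abs_nonneg _) (by positivity)
    exact mul_le_mul_of_nonneg_right cosh_three_tenths hsh.le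
  have hr21 : 0 ≤ (r:ℝ)^2 - 1 := by nlinarith only [hr2]
  have him3 : 2 * |q.im| ≤ Real.sinh a * (37/100 * ((r:ℝ)^2 - 1)) := by
    have e : 105/100 * Real.sinh a * (7/4 * a) * (((r:ℝ)^3 - r)/3) =
        Real.sinh a * (49/80 * (((r:ℝ) * a) * ((r:ℝ)^2 - 1))) := by ring
    rw [e] at him2
    have h1 : ((r:ℝ) * a) * ((r:ℝ)^2 - 1) ≤ 3/10 * ((r:ℝ)^2 - 1) :=
      mul_le_mul_of_nonneg_right hra' hr21
    have h2 : Real.sinh a * (49/80 * (((r:ℝ) * a) * ((r:ℝ)^2 - 1))) ≤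
        Real.sinh a * (49/80 * (3/10 * ((r:ℝ)^2 - 1))) := by
      apply mul_le_mul_of_nonneg_left _ hsh.le
      linarith
    have h3 : Real.sinh a * (2 * (49/80 * (3/10 * ((r:ℝ)^2 - 1)))) ≤
        Real.sinh a * (37/100 * ((r:ℝ)^2 - 1)) := by
      apply mul_le_mul_of_nonneg_left _ hsh.le
      nlinarith only [hr21]
    linarith
  have hb2 : b^2 ≤ 49/16 * a^2 := by
    have := pow_le_pow_left₀ hb0 hb1 2
    linarith
  have hra2 : ((r:ℝ) * a)^2 ≤ 9/100 := by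
    have := pow_le_pow_left₀ (by positivity) hra' 2
    linarith
  have hre2 : 95/100 * (r:ℝ) ≤ q.re := by
    refine le_trans ?_ hre
    have h1 : b^2 * (((r:ℝ)^3 - r)/6) ≤ 49/16 * a^2 * (((r:ℝ)^3 - r)/6) :=
      mul_le_mul_of_nonneg_right hb2 (by linarith)
    have h2 : a^2 * ((r:ℝ)^3 - r) ≤ r * (9/100) := by
      have e : a^2 * ((r:ℝ)^3 - r) = r * (((r:ℝ)*a)^2 - a^2) := by ring
      rw [e]
      apply mul_le_mul_of_nonneg_left _ (by linarith)
      nlinarith only [hra2, sq_nonneg a]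
    nlinarith only [h1, h2, hr2]
  have hqn : ‖q‖^2 = q.re^2 + q.im^2 := by
    rw [Complex.sq_norm, Complex.normSq_apply]; ring
  have hB : 1/2 * ((r:ℝ)^2 - 1) ≤ ‖q‖^2 - 1 := by
    rw [hqn]
    have h1 : (95/100 * (r:ℝ))^2 ≤ q.re^2 := pow_le_pow_left₀ (by positivity) hre2 2
    nlinarith only [h1, sq_nonneg q.im, hr2]
  have hr3 : 3 ≤ (r:ℝ)^2 - 1 := by nlinarith only [hr2]
  have hlt : 2 * |q.im| < Real.sinh a * (‖q‖^2 - 1) := by
    refine lt_of_le_of_lt him3 ?_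
    apply mul_lt_mul_of_pos_left _ hsh
    linarith
  have hB0 : 0 < ‖q‖^2 - 1 := by linarith
  have hn := norm_sq_sub_one q
  have hc2 : Real.cosh a ^ 2 = 1 + Real.sinh a ^ 2 := by rw [Real.cosh_sq]; ring
  have hch : 0 < Real.cosh a := Real.cosh_pos a
  have hfin : ‖q^2 - 1‖ < Real.cosh a * (‖q‖^2 - 1) := by
    apply lt_of_pow_lt_pow_left₀ 2 (by positivity)
    rw [hn, mul_pow, hc2]
    have h1 : (2 * |q.im|)^2 < (Real.sinh a * (‖q‖^2 - 1))^2 :=
      pow_lt_pow_left₀ hlt (by positivity) (by norm_num)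
    rw [mul_pow, sq_abs, mul_pow] at h1
    nlinarith only [h1]
  linarith

end H52TW
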